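import Pool.Agent.E8helper78.FL.Stm

/-!
# Project FL (cluster parking functions), pieces DOM, FIX and MOV
-/

set_option autoImplicit false

open scoped RealInnerProductSpace NNReal

namespace Pool.Agent.E8helper86.FLC

open Pool.Agent.E8helper78.FL

variable {V : Type} [NormedAddCommGroup V] [InnerProductSpace ℝ V]

lemma rf_ap {a : V} (ha : ‖a‖ = 1) (x : V) : rf a x = x - (2 * ⟪a, x⟫) • a := by
  unfold rf
  rw [Submodule.reflection_orthogonal_apply, Submodule.reflection_apply,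
    Submodule.starProjection_unit_singleton ℝ ha, neg_sub, two_nsmul, two_mul, add_smul]

lemma cone_sub {S : Set V} {a : V} (ha : a ∈ S) : a ∈ cone S := Submodule.subset_span ha

lemma cone_smul {S : Set V} {a : V} (ha : a ∈ cone S) {t : ℝ} (ht : 0 ≤ t) : t • a ∈ cone S := by
  have h := (cone S).smul_mem (⟨t, ht⟩ : ℝ≥0) ha
  exact h

lemma cone_nonneg {S : Set V} {l : V} (hl : ∀ a ∈ S, 0 ≤ ⟪l, a⟫) {x : V} (hx : x ∈ cone S) :
    0 ≤ ⟪l, x⟫ := by
  unfold cone at hx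
  induction hx using Submodule.span_induction with
  | mem x h => exact hl x h
  | zero => rw [inner_zero_right]
  | add x y _ _ h1 h2 =>
    rw [inner_add_right]
    exact add_nonneg h1 h2
  | smul t x _ h1 =>
    have e : (t • x : V) = (t : ℝ) • x := rfl
    rw [e, inner_smul_right]
    exact mul_nonneg t.2 h1

lemma pr_append (L M : List V) : pr (L ++ M) = pr L * pr M := by
  unfold pr
  rw [List.map_append, List.prod_append]

lemma pr_concat {a : V} (ha : ‖a‖ = 1) (L : List V) (v : V) :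
    pr (L ++ [a]) v = pr L v - (2 * ⟪a, v⟫) • pr L a := by
  rw [pr_append]
  have e : pr [a] = rf a := by
    unfold pr
    rw [List.map_singleton, List.prod_singleton]
  rw [e]
  show pr L (rf a v) = _
  rw [rf_ap ha, map_sub, map_smul]

/-- the property of the words -/
def HP (P : Set V) (L : List V) : Prop :=
  ∀ (L₁ L₂ : List V) (a : V), L = L₁ ++ a :: L₂ → pr L₁ a ∈ P

lemma HP.left {P : Set V} {L : List V} {a : V} (h : HP P (L ++ [a])) : HP P L ∧ pr L a ∈ P := by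
  refine ⟨fun L₁ L₂ b e => h L₁ (L₂ ++ [a]) b ?_, h L [] a rfl⟩
  rw [e, List.append_assoc, List.cons_append]

lemma dom_list {P : Set V} {v : V} (L : List V) (hu : ∀ a ∈ L, ‖a‖ = 1)
    (hv : ∀ a ∈ L, 0 ≤ ⟪v, a⟫) (h : HP P L) : v - pr L v ∈ cone P := by
  induction L using List.reverseRecOn with
  | nil =>
    have : v - pr ([] : List V) v = 0 := sub_self v
    rw [this]
    exact zero_mem _
  | append_singleton L a ih =>
    have ha : a ∈ L ++ [a] := List.mem_append_right _ (List.mem_singleton.2 rfl)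
    have h1 := ih (fun b hb => hu b (List.mem_append_left _ hb))
      (fun b hb => hv b (List.mem_append_left _ hb)) h.left.1
    rw [pr_concat (hu a ha)]
    have e : v - (pr L v - (2 * ⟪a, v⟫) • pr L a) = (v - pr L v) + (2 * ⟪a, v⟫) • pr L a := by
      abel
    rw [e]
    refine add_mem h1 (cone_smul (cone_sub h.left.2) ?_)
    have := hv a ha
    rw [real_inner_comm] at this
    linarith

theorem t_DOM (h : S_SIMP) (h' : S_WORD) : S_DOM := by
  intro V _ _ _ Φ l v hR hreg hv w hw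
  obtain ⟨D, hD1, -, hD2, hD3⟩ := h V Φ l hR hreg
  obtain ⟨L, hL1, rfl, hL3⟩ := h' V Φ l hR hreg D hD1 hD2 hD3 w hw
  exact dom_list L (fun a ha => hR.unit a (hD1 (hL1 a ha)).1)
    (fun a ha => hv a (hD1 (hL1 a ha))) hL3

/-- a vector fixed by a word is orthogonal to all the letters -/
lemma fix_list {P : Set V} {l v : V} (hP : ∀ a ∈ P, 0 < ⟪l, a⟫) (L : List V)
    (hu : ∀ a ∈ L, ‖a‖ = 1) (hv : ∀ a ∈ L, 0 ≤ ⟪v, a⟫) (h : HP P L) (hf : pr L v = v) :
    ∀ a ∈ L, ⟪v, a⟫ = 0 := by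
  induction L using List.reverseRecOn with
  | nil =>
    intro a ha
    simp at ha
  | append_singleton L a ih =>
    have ha : a ∈ L ++ [a] := List.mem_append_right _ (List.mem_singleton.2 rfl)
    have hu' := fun b hb => hu b (List.mem_append_left [a] hb)
    have hv' := fun b hb => hv b (List.mem_append_left [a] hb)
    have h1 := dom_list L hu' hv' h.left.1
    rw [pr_concat (hu a ha)] at hf
    have h2 : (v - pr L v) + (2 * ⟪a, v⟫) • pr L a = 0 := by
      have e : (v - pr L v) + (2 * ⟪a, v⟫) • pr L a = v - (pr L v - (2 * ⟪a, v⟫) • pr L a) := by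
        abel
      rw [e, hf, sub_self]
    have h3 := congrArg (fun x => ⟪l, x⟫) h2
    simp only [inner_add_right, inner_smul_right, inner_zero_right] at h3
    have h4 := cone_nonneg (fun a ha => (hP a ha).le) h1
    have h5 := hP _ h.left.2
    have h6 := hv a ha
    have h7 : ⟪a, v⟫ = ⟪v, a⟫ := real_inner_comm _ _
    rw [h7] at h3 h2
    have h8 : ⟪v, a⟫ = 0 := by
      by_contra hne
      have h9 : 0 < ⟪v, a⟫ := lt_of_le_of_ne h6 (Ne.symm hne)
      have h10 : 0 < 2 * ⟪v, a⟫ * ⟪l, pr L a⟫ := by positivity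
      linarith
    rw [h8, mul_zero, zero_smul, add_zero] at h2
    have h9 := ih hu' hv' h.left.1 (sub_eq_zero.1 h2).symm
    intro b hb
    rcases List.mem_append.1 hb with hb | hb
    · exact h9 b hb
    · rw [List.mem_singleton.1 hb]
      exact h8

/-- a regular vector -/
lemma exists_reg [FiniteDimensional ℝ V] {Φ : Set V} (hR : IsRoots Φ) :
    ∃ l : V, ∀ a ∈ Φ, ⟪l, a⟫ ≠ 0 := by
  have h1 : (⊤ : Submodule ℝ V) ∉ hR.fin.toFinset.image fun a => (ℝ ∙ a)ᗮ := by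
    classical
    rw [Finset.mem_image]
    rintro ⟨a, ha, h2⟩
    rw [Set.Finite.mem_toFinset] at ha
    have h3 : a ∈ (ℝ ∙ a)ᗮ := by rw [h2]; trivial
    rw [Submodule.mem_orthogonal_singleton_iff_inner_left] at h3
    have h4 := hR.unit a ha
    rw [inner_self_eq_zero] at h3
    rw [h3, norm_zero] at h4
    exact zero_ne_one h4
  have h2 := Subspace.biUnion_ne_univ_of_top_notMem h1
  obtain ⟨l, hl⟩ := (Set.ne_univ_iff_exists_notMem _).1 h2
  refine ⟨l, fun a ha h3 => hl ?_⟩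
  rw [Set.mem_iUnion₂]
  refine ⟨(ℝ ∙ a)ᗮ, Finset.mem_image.2 ⟨a, hR.fin.mem_toFinset.2 ha, rfl⟩, ?_⟩
  rw [SetLike.mem_coe, Submodule.mem_orthogonal_singleton_iff_inner_left]
  exact h3

/-- a regular vector near the ray of `v` -/
lemma exists_near [FiniteDimensional ℝ V] {Φ : Set V} (hR : IsRoots Φ) (v : V) :
    ∃ l : V, (∀ a ∈ Φ, ⟪l, a⟫ ≠ 0) ∧ ∀ a ∈ pos Φ l, 0 ≤ ⟪v, a⟫ := by
  obtain ⟨l₀, hl₀⟩ := exists_reg hR
  have h1 : ∀ᶠ N : ℝ in Filter.atTop, ∀ a ∈ Φ, ⟪v, a⟫ ≠ 0 → |⟪l₀, a⟫| < N * |⟪v, a⟫| := by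
    rw [Filter.eventually_all_finite hR.fin]
    intro a ha
    by_cases h : ⟪v, a⟫ = 0
    · exact Filter.Eventually.of_forall fun N h2 => absurd h h2
    · have h3 : 0 < |⟪v, a⟫| := abs_pos.2 h
      filter_upwards [Filter.eventually_gt_atTop (|⟪l₀, a⟫| / |⟪v, a⟫|)] with N hN _
      rwa [div_lt_iff₀ h3] at hN
  obtain ⟨N, hN0, hN⟩ := ((Filter.eventually_ge_atTop (0 : ℝ)).and h1).exists
  refine ⟨N • v + l₀, fun a ha => ?_, fun a ha => ?_⟩
  · rw [inner_add_left, inner_smul_left]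
    intro h2
    have h2' : N * ⟪v, a⟫ + ⟪l₀, a⟫ = 0 := h2
    by_cases h : ⟪v, a⟫ = 0
    · rw [h, mul_zero, zero_add] at h2'
      exact hl₀ a ha h2'
    · have h3 := hN a ha h
      have h4 : ⟪l₀, a⟫ = -(N * ⟪v, a⟫) := by linarith
      rw [h4, abs_neg, abs_mul, abs_of_nonneg hN0] at h3
      exact lt_irrefl _ h3
  · obtain ⟨ha1, ha2⟩ := ha
    rw [inner_add_left, inner_smul_left] at ha2
    have h2' : 0 < N * ⟪v, a⟫ + ⟪l₀, a⟫ := ha2
    by_contra h
    push Not at h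
    have h3 := hN a ha1 h.ne
    rw [abs_of_neg h] at h3
    have h4 := le_abs_self ⟪l₀, a⟫
    linarith

lemma roots_sub {Φ : Set V} (hR : IsRoots Φ) (v : V) : IsRoots {a | a ∈ Φ ∧ ⟪v, a⟫ = 0} := by
  refine ⟨hR.fin.subset fun a ha => ha.1, fun a ha => hR.unit a ha.1, fun a ha b hb => ?_⟩
  refine ⟨hR.refl a ha.1 b hb.1, ?_⟩
  rw [rf_ap (hR.unit a ha.1), inner_sub_right, inner_smul_right, ha.2, hb.2, mul_zero, sub_zero]

lemma pr_mem {Φ : Set V} (L : List V) (h : ∀ a ∈ L, a ∈ Φ) : pr L ∈ Wg Φ := by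
  unfold pr
  refine Subgroup.list_prod_mem _ fun x hx => ?_
  obtain ⟨a, ha, rfl⟩ := List.mem_map.1 hx
  exact Subgroup.subset_closure ⟨a, h a ha, rfl⟩

/-- Steinberg's theorem for one vector -/
lemma fix_one [FiniteDimensional ℝ V] (h : S_SIMP) (h' : S_WORD) {Φ : Set V} (hR : IsRoots Φ)
    {w : V ≃ₗᵢ[ℝ] V} (hw : w ∈ Wg Φ) {v : V} (hv : w v = v) :
    w ∈ Wg {a | a ∈ Φ ∧ ⟪v, a⟫ = 0} := by
  obtain ⟨l, hreg, hl⟩ := exists_near hR v
  obtain ⟨D, hD1, -, hD2, hD3⟩ := h V Φ l hR hreg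
  obtain ⟨L, hL1, rfl, hL3⟩ := h' V Φ l hR hreg D hD1 hD2 hD3 w hw
  have h1 := fix_list (P := pos Φ l) (l := l) (fun a ha => ha.2) L
    (fun a ha => hR.unit a (hD1 (hL1 a ha)).1) (fun a ha => hl a (hD1 (hL1 a ha))) hL3 hv
  exact pr_mem L fun a ha => ⟨(hD1 (hL1 a ha)).1, h1 a ha⟩

theorem t_FIX (h : S_SIMP) (h' : S_WORD) : S_FIX := by
  classical
  intro V _ _ _ Φ hR w hw F hF
  have key : ∀ s : Finset V, (∀ x ∈ s, w x = x) →
      IsRoots {a | a ∈ Φ ∧ ∀ x ∈ s, ⟪x, a⟫ = 0} ∧ w ∈ Wg {a | a ∈ Φ ∧ ∀ x ∈ s, ⟪x, a⟫ = 0} := by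
    intro s
    induction s using Finset.induction_on with
    | empty =>
      intro _
      have e : {a | a ∈ Φ ∧ ∀ x ∈ (∅ : Finset V), ⟪x, a⟫ = 0} = Φ := by
        ext a
        simp
      rw [e]
      exact ⟨hR, hw⟩
    | insert v s hvs ih =>
      intro hs
      obtain ⟨i1, i2⟩ := ih fun x hx => hs x (Finset.mem_insert_of_mem hx)
      have e : {a | a ∈ Φ ∧ ∀ x ∈ insert v s, ⟪x, a⟫ = 0} =
          {a | a ∈ {a | a ∈ Φ ∧ ∀ x ∈ s, ⟪x, a⟫ = 0} ∧ ⟪v, a⟫ = 0} := by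
        ext a
        constructor
        · rintro ⟨h1, h2⟩
          exact ⟨⟨h1, fun x hx => h2 x (Finset.mem_insert_of_mem hx)⟩,
            h2 v (Finset.mem_insert_self _ _)⟩
        · rintro ⟨⟨h1, h2⟩, h3⟩
          refine ⟨h1, fun x hx => ?_⟩
          rcases Finset.mem_insert.1 hx with rfl | hx
          · exact h3
          · exact h2 x hx
      rw [e]
      exact ⟨roots_sub i1 v, fix_one h h' i1 i2 (hs v (Finset.mem_insert_self _ _))⟩
  obtain ⟨s, hs⟩ : ∃ s : Finset V, Submodule.span ℝ (s : Set V) = F :=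
    IsNoetherian.noetherian F
  have h1 := (key s fun x hx => hF x (by rw [← hs]; exact Submodule.subset_span hx)).2
  have e : {a | a ∈ Φ ∧ ∀ x ∈ s, ⟪x, a⟫ = 0} = {a | a ∈ Φ ∧ ∀ x ∈ F, ⟪x, a⟫ = 0} := by
    ext a
    refine and_congr_right fun _ => ⟨fun h2 x hx => ?_, fun h2 x hx => h2 x ?_⟩
    · rw [← hs] at hx
      induction hx using Submodule.span_induction with
      | mem x h => exact h2 x h
      | zero => rw [inner_zero_left]
      | add x y _ _ h3 h4 => rw [inner_add_left, h3, h4, add_zero]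
      | smul t x _ h3 => rw [inner_smul_left, h3, mul_zero]
    · rw [← hs]
      exact Submodule.subset_span hx
  rwa [e] at h1

lemma sub_mem_span {Ψ : Set V} (hu : ∀ a ∈ Ψ, ‖a‖ = 1) {g : V ≃ₗᵢ[ℝ] V} (hg : g ∈ Wg Ψ) :
    ∀ u, u - g u ∈ Submodule.span ℝ Ψ := by
  unfold Wg at hg
  induction hg using Subgroup.closure_induction with
  | mem x hx =>
    obtain ⟨a, ha, rfl⟩ := hx
    intro u
    rw [rf_ap (hu a ha), sub_sub_cancel]
    exact Submodule.smul_mem _ _ (Submodule.subset_span ha)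
  | one =>
    intro u
    have : u - (1 : V ≃ₗᵢ[ℝ] V) u = 0 := sub_self u
    rw [this]
    exact zero_mem _
  | mul x y _ _ hx hy =>
    intro u
    have e : u - (x * y) u = (u - y u) + (y u - x (y u)) := by
      show u - x (y u) = _
      abel
    rw [e]
    exact add_mem (hy u) (hx _)
  | inv x _ hx =>
    intro u
    have h1 : x (x⁻¹ u) = u := x.apply_symm_apply u
    have h2 := hx (x⁻¹ u)
    rw [h1] at h2
    have e : u - x⁻¹ u = -(x⁻¹ u - u) := by abel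
    rw [e]
    exact neg_mem h2

lemma mem_Mov' {w : V ≃ₗᵢ[ℝ] V} {x : V} : x ∈ Mov w ↔ ∃ u, u - w u = x := Iff.rfl

theorem t_MOV (h : S_FIX) : S_MOV := by
  intro V _ _ _ Φ hR w hw
  obtain ⟨F, hF⟩ : ∃ F : Submodule ℝ V, ∀ x, x ∈ F ↔ w x = x := by
    refine ⟨LinearMap.ker ((LinearMap.id : V →ₗ[ℝ] V) - (w.toLinearEquiv : V →ₗ[ℝ] V)),
      fun x => ?_⟩
    rw [LinearMap.mem_ker, LinearMap.sub_apply, sub_eq_zero]
    exact eq_comm
  have h1 := h V Φ hR w hw F fun x hx => (hF x).1 hx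
  have h2 : (Mov w)ᗮ ≤ F := by
    intro y hy
    rw [hF]
    rw [Submodule.mem_orthogonal] at hy
    have h3 : ∀ u, ⟪w u, y - w y⟫ = 0 := by
      intro u
      have h4 := hy (u - w u) (mem_Mov'.2 ⟨u, rfl⟩)
      rw [inner_sub_left] at h4
      rw [inner_sub_right, w.inner_map_map]
      linarith
    obtain ⟨u, hu⟩ := w.surjective (y - w y)
    have h4 := h3 u
    rw [hu, inner_self_eq_zero, sub_eq_zero] at h4
    exact h4.symm
  apply le_antisymm
  · rw [Submodule.span_le]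
    exact fun a ha => ha.2
  · have h5 : ∀ a, a ∈ {a | a ∈ Φ ∧ ∀ x ∈ F, ⟪x, a⟫ = 0} → a ∈ {a | a ∈ Φ ∧ a ∈ Mov w} := by
      rintro a ⟨ha, hx⟩
      refine ⟨ha, ?_⟩
      have h6 : a ∈ (Mov w)ᗮᗮ := by
        rw [Submodule.mem_orthogonal]
        exact fun u hu => hx u (h2 hu)
      rwa [Submodule.orthogonal_orthogonal] at h6
    intro x hx
    obtain ⟨u, rfl⟩ := mem_Mov'.1 hx
    exact Submodule.span_mono h5 (sub_mem_span (fun a ha => hR.unit a ha.1) h1 u)

end Pool.Agent.E8helper86.FLC
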