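import Pool.Agent.E8helper11.FL.Stm

/-!
# Project FL, piece MINL: a minimum connected set, its spanning tree and the paths between nodes
-/

set_option autoImplicit false

open SimpleGraph
open scoped Classical

namespace Pool.Agent.E8helper86.FL

open FL11

variable {V : Type} {G : SimpleGraph V} {S : Finset V} {r : V} {par : V → V} {h : V → ℕ}

lemma it_mem (T : RTree G S r par h) {x : V} (hx : x ∈ S) (i : ℕ) : par^[i] x ∈ S := by
  induction i with
  | zero => exact hx
  | succ i ih =>
    rw [Function.iterate_succ_apply']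
    exact T.par_mem _ ih

lemma it_root (T : RTree G S r par h) (i : ℕ) : par^[i] r = r := by
  induction i with
  | zero => rfl
  | succ i ih => rw [Function.iterate_succ_apply', ih, T.par_root]

lemma reach_root (T : RTree G S r par h) (n : ℕ) : ∀ x ∈ S, h x = n → par^[n] x = r := by
  induction n with
  | zero =>
    intro x hx h0
    by_contra hne
    have := T.height x hx hne
    omega
  | succ n ih =>
    intro x hx h1
    by_cases hxr : x = r
    · rw [hxr, T.height_root] at h1
      omega
    · have := T.height x hx hxr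
      rw [Function.iterate_succ_apply]
      exact ih (par x) (T.par_mem x hx) (by omega)

lemma it_le (T : RTree G S r par h) {x : V} (hx : x ∈ S) (i : ℕ) : h (par^[i] x) ≤ h x := by
  induction i with
  | zero => exact le_rfl
  | succ i ih =>
    rw [Function.iterate_succ_apply']
    by_cases hxr : par^[i] x = r
    · rw [hxr, T.par_root]
      rw [hxr] at ih
      exact ih
    · have := T.height _ (it_mem T hx i) hxr
      omega

lemma it_eq (T : RTree G S r par h) {x : V} (hx : x ∈ S) (i : ℕ)
    (hne : ∀ j < i, par^[j] x ≠ r) : h (par^[i] x) + i = h x := by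
  induction i with
  | zero => rfl
  | succ i ih =>
    rw [Function.iterate_succ_apply']
    have h1 := ih fun j hj => hne j (by omega)
    have h2 := T.height _ (it_mem T hx i) (hne i (by omega))
    omega

/-- a subset of the tree that is closed under the parent until `c` is connected -/
lemma conn_of (T : RTree G S r par h) (A : Set V) (hA : A ⊆ S) (c : V) (hc : c ∈ A)
    (hcl : ∀ z ∈ A, z ≠ c → z ≠ r ∧ par z ∈ A) : (G.induce A).Connected := by
  have key : ∀ n, ∀ (z : V) (hz : z ∈ A), h z = n →
      (G.induce A).Reachable ⟨z, hz⟩ ⟨c, hc⟩ := by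
    intro n
    induction n using Nat.strong_induction_on with
    | _ n ih =>
      intro z hz hn
      by_cases hzc : z = c
      · subst hzc
        exact Reachable.refl _
      · obtain ⟨h1, h2⟩ := hcl z hz hzc
        have h3 := T.height z (hA hz) h1
        have h5 : (G.induce A).Adj ⟨z, hz⟩ ⟨par z, h2⟩ := T.adj z (hA hz) h1
        exact h5.reachable.trans (ih (h (par z)) (by omega) _ h2 rfl)
  have : Nonempty A := ⟨⟨c, hc⟩⟩
  exact Connected.mk (fun a b => (key _ a.1 a.2 rfl).trans (key _ b.1 b.2 rfl).symm)

theorem minl : S_MINL := by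
  intro V _ G S Z O r par h T hZS hSO hZ2 hmin
  refine ⟨fun x hx hch => ?_, fun x hx k hk hcond y hy hyn w hw => ?_⟩
  · by_contra hxZ
    -- `x` is not the root
    have hxr : x ≠ r := by
      rintro rfl
      obtain ⟨c, hc, hcx⟩ : ∃ c ∈ S, c ≠ x := by
        obtain ⟨a, ha, b, hb, hab⟩ := Finset.one_lt_card.1 (lt_of_lt_of_le (by norm_num) hZ2)
        by_cases hax : a = x
        · exact ⟨b, hZS hb, fun h => hab (hax.trans h.symm)⟩
        · exact ⟨a, hZS ha, hax⟩
      obtain ⟨c', hc', hmn⟩ := (S.erase x).exists_min_image h ⟨c, Finset.mem_erase.2 ⟨hcx, hc⟩⟩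
      rw [Finset.mem_erase] at hc'
      have h1 := hch c' hc'.2 hc'.1
      have h2 := hmn (par c') (Finset.mem_erase.2 ⟨h1, T.par_mem _ hc'.2⟩)
      have h3 := T.height c' hc'.2 hc'.1
      omega
    have h1 := hmin (S.erase x) (conn_of T _ (by simp) r
      (Finset.mem_coe.2 (Finset.mem_erase.2 ⟨hxr.symm, T.root_mem⟩)) (fun z hz hzr => ⟨hzr, ?_⟩))
      (fun z hz => Finset.mem_erase.2 ⟨fun h => hxZ (h ▸ hz), hZS hz⟩)
      (fun z hz => hSO (Finset.mem_of_mem_erase hz))
    · rw [Finset.card_erase_of_mem hx] at h1
      have := Finset.card_pos.2 ⟨x, hx⟩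
      omega
    · have hz' : z ∈ S.erase x := hz
      rw [Finset.mem_erase] at hz'
      exact Finset.mem_coe.2 (Finset.mem_erase.2 ⟨hch z hz'.2 hzr, T.par_mem z hz'.2⟩)
  · -- the vertices `u j`
    obtain ⟨u, hu⟩ : ∃ u : ℕ → V, ∀ j, u j = par^[j] x := ⟨fun j => par^[j] x, fun _ => rfl⟩
    have hu0 : u 0 = x := hu 0
    have hus : ∀ j, u (j + 1) = par (u j) := fun j => by
      rw [hu, hu, Function.iterate_succ_apply']
    have huS : ∀ j, u j ∈ S := fun j => by rw [hu]; exact it_mem T hx j
    have hadd : ∀ i j, par^[i] (u j) = u (i + j) := fun i j => by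
      rw [hu, hu, Function.iterate_add_apply]
    have hyn' : ∀ i, par^[i] y ≠ u (k - 1) := fun i => by rw [hu]; exact hyn i
    have hxy : x ≠ y := by
      rintro rfl
      exact hyn' (k - 1) (hu _).symm
    have hur : ∀ j, j ≤ k - 1 → u j ≠ r := by
      intro j hj h1
      apply hyn' (h y)
      rw [reach_root T _ y hy rfl]
      have h2 := hadd (k - 1 - j) j
      rw [h1, it_root T] at h2
      rw [h2]
      congr 1
      omega
    have hht : ∀ j, j ≤ k - 1 → h (u j) + j = h x := fun j hj => by
      rw [hu]
      exact it_eq T hx j fun i hi => by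
        rw [← hu]
        exact hur i (by omega)
    -- the sets
    obtain ⟨U, hU⟩ : ∃ U : Finset V, U = (Finset.Ico 1 k).image u := ⟨_, rfl⟩
    obtain ⟨A, hA⟩ : ∃ A : Finset V, A = S.filter fun z => ∃ i, par^[i] z = x := ⟨_, rfl⟩
    obtain ⟨B, hB⟩ : ∃ B : Finset V, B = S.filter fun z => ∀ i, par^[i] z ≠ u (k - 1) :=
      ⟨_, rfl⟩
    have mU : ∀ z, z ∈ U ↔ ∃ j, (1 ≤ j ∧ j < k) ∧ u j = z := fun z => by
      rw [hU]
      simp [Finset.mem_image]
    have mA : ∀ z, z ∈ A ↔ z ∈ S ∧ ∃ i, par^[i] z = x := fun z => by
      rw [hA, Finset.mem_filter]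
    have mB : ∀ z, z ∈ B ↔ z ∈ S ∧ ∀ i, par^[i] z ≠ u (k - 1) := fun z => by
      rw [hB, Finset.mem_filter]
    have hUS : U ⊆ S := fun z hz => by
      obtain ⟨j, -, rfl⟩ := (mU z).1 hz
      exact huS j
    have hUc : U.card = k - 1 := by
      rw [hU, Finset.card_image_of_injOn, Nat.card_Ico]
      intro i hi j hj hij
      rw [Finset.coe_Ico, Set.mem_Ico] at hi hj
      have h1 := hht i (by omega)
      have h2 := hht j (by omega)
      have hij' : u i = u j := hij
      rw [hij'] at h1
      omega
    -- `A`, `B` and `U`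
    have hAU : ∀ z ∈ A, z ∉ U := by
      intro z hz hzU
      obtain ⟨j, hj, rfl⟩ := (mU z).1 hzU
      obtain ⟨-, i, hi⟩ := (mA _).1 hz
      have h1 := it_le T (huS j) i
      rw [hi] at h1
      have h2 := hht j (by omega)
      omega
    have hBU : ∀ z ∈ B, z ∉ U := by
      intro z hz hzU
      obtain ⟨j, hj, rfl⟩ := (mU z).1 hzU
      apply ((mB _).1 hz).2 (k - 1 - j)
      rw [hadd]
      congr 1
      omega
    have hcl : ∀ i, ∀ z ∈ S, z ∉ U → ∀ j, 1 ≤ j → j ≤ k - 1 → par^[i] z = u j →
        ∃ i', par^[i'] z = x := by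
      intro i
      induction i with
      | zero =>
        intro z hz hzU j h1 h2 h3
        exact absurd ((mU z).2 ⟨j, ⟨h1, by omega⟩, h3.symm⟩) hzU
      | succ i ih =>
        intro z hz hzU j h1 h2 h3
        rw [Function.iterate_succ_apply'] at h3
        have hcS := it_mem T hz i
        have hcr : par^[i] z ≠ r := by
          intro h4
          rw [h4, T.par_root] at h3
          exact hur j h2 h3.symm
        have h5 := (hcond j h1 (by omega)).2 _ hcS hcr (by rw [h3, hu])
        rw [← hu] at h5
        by_cases hj : j = 1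
        · rw [hj] at h5
          exact ⟨i, by rw [h5]; exact hu0⟩
        · exact ih z hz hzU (j - 1) (by omega) (by omega) h5
    have hAB : ∀ z ∈ S, z ∉ U → z ∈ A ∨ z ∈ B := by
      intro z hz hzU
      by_cases hzB : z ∈ B
      · exact Or.inr hzB
      · left
        have h1 : ∃ i, par^[i] z = u (k - 1) := by
          by_contra hcon
          exact hzB ((mB z).2 ⟨hz, fun i hi => hcon ⟨i, hi⟩⟩)
        obtain ⟨i, hi⟩ := h1
        by_cases hk1 : k = 1
        · refine (mA z).2 ⟨hz, i, ?_⟩
          rw [hi, hk1]
          exact hu0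
        · exact (mA z).2 ⟨hz, hcl i z hz hzU (k - 1) (by omega) le_rfl hi⟩
    have hxA : x ∈ A := (mA x).2 ⟨hx, 0, rfl⟩
    have hyB : y ∈ B := (mB y).2 ⟨hy, hyn'⟩
    -- connectedness
    have cA : (G.induce (A : Set V)).Connected := by
      refine conn_of T _ (fun z hz => ((mA z).1 hz).1) x hxA fun z hz hzx => ?_
      obtain ⟨hzS, i, hi⟩ := (mA z).1 hz
      refine ⟨?_, Finset.mem_coe.2 ((mA _).2 ⟨T.par_mem z hzS, ?_⟩)⟩
      · rintro rfl
        rw [it_root T] at hi
        exact hzx hi
      · cases i with
        | zero => exact absurd hi hzx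
        | succ i => exact ⟨i, by rw [← Function.iterate_succ_apply]; exact hi⟩
    have cB : (G.induce (B : Set V)).Connected := by
      refine conn_of T _ (fun z hz => ((mB z).1 hz).1) r ?_ fun z hz hzx => ⟨hzx, ?_⟩
      · refine Finset.mem_coe.2 ((mB r).2 ⟨T.root_mem, fun i => ?_⟩)
        rw [it_root T]
        exact (hur (k - 1) le_rfl).symm
      · obtain ⟨hzS, hi⟩ := (mB z).1 hz
        refine Finset.mem_coe.2 ((mB _).2 ⟨T.par_mem z hzS, fun i h1 => ?_⟩)
        apply hi (i + 1)
        rw [Function.iterate_succ_apply]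
        exact h1
    obtain ⟨W, hW⟩ : ∃ W : Finset V, W = w.support.toFinset := ⟨_, rfl⟩
    have mW : ∀ z, z ∈ W ↔ z ∈ w.support := fun z => by rw [hW, List.mem_toFinset]
    have cW : (G.induce (W : Set V)).Connected := by
      have h1 := w.connected_induce_support
      have h2 : (W : Set V) = {v | v ∈ w.support} := by
        ext z
        exact mW z
      rw [h2]
      exact h1
    have c1 : (G.induce ((W : Set V) ∪ (A : Set V))).Connected :=
      induce_union_connected cW.preconnected cA.preconnected ⟨x, (mW x).2 w.start_mem_support, hxA⟩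
    have c2 : (G.induce (((W : Set V) ∪ (A : Set V)) ∪ (B : Set V))).Connected :=
      induce_union_connected c1.preconnected cB.preconnected ⟨y, Or.inl ((mW y).2 w.end_mem_support), hyB⟩
    have h1 := hmin (W ∪ A ∪ B) (by
        rw [Finset.coe_union, Finset.coe_union]
        exact c2) (fun z hz => by
        have h3 : z ∉ U := by
          intro h4
          obtain ⟨j, hj, rfl⟩ := (mU z).1 h4
          apply (hcond j hj.1 hj.2).1
          rw [← hu]
          exact hz
        rcases hAB z (hZS hz) h3 with h4 | h4
        · exact Finset.mem_union_left _ (Finset.mem_union_right _ h4)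
        · exact Finset.mem_union_right _ h4) (fun z hz => by
        rw [Finset.coe_union, Finset.coe_union] at hz
        rcases hz with (h4 | h4) | h4
        · exact hw z ((mW z).1 h4)
        · exact hSO ((mA z).1 h4).1
        · exact hSO ((mB z).1 h4).1)
    -- the cardinality
    have h2 : W ∪ A ∪ B ⊆ (S \ U) ∪ (W \ {x, y}) := by
      intro z hz
      have hsub : z ∈ A ∨ z ∈ B → z ∈ S \ U := by
        rintro (h4 | h4)
        · exact Finset.mem_sdiff.2 ⟨((mA z).1 h4).1, hAU z h4⟩
        · exact Finset.mem_sdiff.2 ⟨((mB z).1 h4).1, hBU z h4⟩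
      rcases Finset.mem_union.1 hz with h3 | h3
      · rcases Finset.mem_union.1 h3 with h4 | h4
        · by_cases hzx : z = x
          · subst hzx
            exact Finset.mem_union_left _ (hsub (Or.inl hxA))
          · by_cases hzy : z = y
            · subst hzy
              exact Finset.mem_union_left _ (hsub (Or.inr hyB))
            · refine Finset.mem_union_right _ (Finset.mem_sdiff.2 ⟨h4, ?_⟩)
              rw [Finset.mem_insert, Finset.mem_singleton]
              rintro (h5 | h5)
              · exact hzx h5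
              · exact hzy h5
        · exact Finset.mem_union_left _ (hsub (Or.inl h4))
      · exact Finset.mem_union_left _ (hsub (Or.inr h3))
    have h3 := (Finset.card_le_card h2).trans (Finset.card_union_le _ _)
    have h4 : (W \ {x, y}).card + 2 = W.card := by
      have h5 : ({x, y} : Finset V) ⊆ W := by
        intro z hz
        rw [Finset.mem_insert, Finset.mem_singleton] at hz
        rcases hz with rfl | rfl
        · exact (mW _).2 w.start_mem_support
        · exact (mW _).2 w.end_mem_support
      have h6 := Finset.card_sdiff_add_card_eq_card h5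
      rwa [Finset.card_pair hxy] at h6
    have h5 : W.card ≤ w.length + 1 := by
      rw [hW, ← w.length_support]
      exact List.toFinset_card_le _
    have h6 := Finset.card_sdiff_add_card_eq_card hUS
    rw [hUc] at h6
    omega

end Pool.Agent.E8helper86.FL
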